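import Pool.Agent.H29.ERO.Targets
import Pool.Agent.H48.ER.Lib

/-!
# MP_816b90_co, only-if direction: odd prisms in the form of the problem (PRC)
-/

set_option autoImplicit false

open Pool.Agent.H48.ER

namespace Pool.Agent.H29.ERO

section

variable {V : Type} {G : SimpleGraph V} {a b : V}

theorem sub_mem (p : G.Walk a b) {u v : V} (h : p.toSubgraph.Adj u v) :
    u ∈ p.support ∧ v ∈ p.support :=
  ⟨p.mem_verts_toSubgraph.1 (p.toSubgraph.edge_vert h),
    p.mem_verts_toSubgraph.1 (p.toSubgraph.edge_vert h.symm)⟩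

theorem chordless (p : G.Walk a b) (hp : p.IsPath)
    (hA : ∀ u v, u ∈ p.support → v ∈ p.support → G.Adj u v → p.toSubgraph.Adj u v) :
    ∀ i j : ℕ, i + 1 < j → j ≤ p.length → ¬ G.Adj (p.getVert i) (p.getVert j) := by
  intro i j hij hj h
  have h1 := hA _ _ (p.getVert_mem_support i) (p.getVert_mem_support j) h
  rw [SimpleGraph.Walk.toSubgraph_adj_iff] at h1
  obtain ⟨t, ht, htl⟩ := h1
  rw [Sym2.eq_iff] at ht
  rcases ht with ⟨h2, h3⟩ | ⟨h2, h3⟩
  · have e1 := hp.getVert_injOn (show t ≤ p.length by omega) (show i ≤ p.length by omega) h2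
    have e2 := hp.getVert_injOn (show t + 1 ≤ p.length by omega) hj h3
    omega
  · have e1 := hp.getVert_injOn (show t ≤ p.length by omega) hj h2
    have e2 := hp.getVert_injOn (show t + 1 ≤ p.length by omega)
      (show i ≤ p.length by omega) h3
    omega

end

theorem pf_PRC (hWLK : T_WLK) : T_PRC := by
  intro m G hN
  rintro ⟨a1, a2, a3, b1, b2, b3, p1, p2, p3, q1, q2, q3, l1, l2, l3, d12, d13, d23, H⟩
  have A1 := p1.start_mem_support
  have A2 := p2.start_mem_support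
  have A3 := p3.start_mem_support
  have B1 := p1.end_mem_support
  have B2 := p2.end_mem_support
  have B3 := p3.end_mem_support
  -- corners on the paths
  have c1a : ∀ u ∈ p1.support, (u = a1 ∨ u = a2 ∨ u = a3) → u = a1 := by
    rintro u hu (h | h | h)
    · exact h
    · exact absurd (h ▸ A2) (d12 u hu)
    · exact absurd (h ▸ A3) (d13 u hu)
  have c1b : ∀ u ∈ p1.support, (u = b1 ∨ u = b2 ∨ u = b3) → u = b1 := by
    rintro u hu (h | h | h)
    · exact h
    · exact absurd (h ▸ B2) (d12 u hu)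
    · exact absurd (h ▸ B3) (d13 u hu)
  have c2a : ∀ u ∈ p2.support, (u = a1 ∨ u = a2 ∨ u = a3) → u = a2 := by
    rintro u hu (h | h | h)
    · exact absurd hu (d12 u (h ▸ A1))
    · exact h
    · exact absurd (h ▸ A3) (d23 u hu)
  have c2b : ∀ u ∈ p2.support, (u = b1 ∨ u = b2 ∨ u = b3) → u = b2 := by
    rintro u hu (h | h | h)
    · exact absurd hu (d12 u (h ▸ B1))
    · exact h
    · exact absurd (h ▸ B3) (d23 u hu)
  have c3a : ∀ u ∈ p3.support, (u = a1 ∨ u = a2 ∨ u = a3) → u = a3 := by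
    rintro u hu (h | h | h)
    · exact absurd hu (d13 u (h ▸ A1))
    · exact absurd hu (d23 u (h ▸ A2))
    · exact h
  have c3b : ∀ u ∈ p3.support, (u = b1 ∨ u = b2 ∨ u = b3) → u = b3 := by
    rintro u hu (h | h | h)
    · exact absurd hu (d13 u (h ▸ B1))
    · exact absurd hu (d23 u (h ▸ B2))
    · exact h
  -- the three paths
  have i1 := (hWLK _ G a1 b1).1 p1 q1 (chordless p1 q1 (by
    intro u v hu hv h
    rcases (H u v (Or.inl hu) (Or.inl hv)).1 h with h | h | h | ⟨h, h1, h2⟩ | ⟨h, h1, h2⟩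
    · exact h
    · exact absurd (sub_mem p2 h).1 (d12 u hu)
    · exact absurd (sub_mem p3 h).1 (d13 u hu)
    · exact absurd ((c1a u hu h1).trans (c1a v hv h2).symm) h
    · exact absurd ((c1b u hu h1).trans (c1b v hv h2).symm) h))
  have i2 := (hWLK _ G a2 b2).1 p2 q2 (chordless p2 q2 (by
    intro u v hu hv h
    rcases (H u v (Or.inr (Or.inl hu)) (Or.inr (Or.inl hv))).1 h with
      h | h | h | ⟨h, h1, h2⟩ | ⟨h, h1, h2⟩
    · exact absurd hu (d12 u (sub_mem p1 h).1)
    · exact h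
    · exact absurd (sub_mem p3 h).1 (d23 u hu)
    · exact absurd ((c2a u hu h1).trans (c2a v hv h2).symm) h
    · exact absurd ((c2b u hu h1).trans (c2b v hv h2).symm) h))
  have i3 := (hWLK _ G a3 b3).1 p3 q3 (chordless p3 q3 (by
    intro u v hu hv h
    rcases (H u v (Or.inr (Or.inr hu)) (Or.inr (Or.inr hv))).1 h with
      h | h | h | ⟨h, h1, h2⟩ | ⟨h, h1, h2⟩
    · exact absurd hu (d13 u (sub_mem p1 h).1)
    · exact absurd hu (d23 u (sub_mem p2 h).1)
    · exact h
    · exact absurd ((c3a u hu h1).trans (c3a v hv h2).symm) h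
    · exact absurd ((c3b u hu h1).trans (c3b v hv h2).symm) h))
  have hpr := mk3 i1 i2 i3 (by omega) (by omega) (by omega)
    (Set.disjoint_left.2 fun v h1 h2 => d12 v h1 h2)
    (Set.disjoint_left.2 fun v h1 h2 => d13 v h1 h2)
    (Set.disjoint_left.2 fun v h1 h2 => d23 v h1 h2)
    (by
      intro u (hu : u ∈ p1.support) v (hv : v ∈ p2.support)
      rw [H u v (Or.inl hu) (Or.inr (Or.inl hv))]
      constructor
      · rintro (h | h | h | ⟨-, h1, h2⟩ | ⟨-, h1, h2⟩)
        · exact absurd hv (d12 v (sub_mem p1 h).2)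
        · exact absurd (sub_mem p2 h).1 (d12 u hu)
        · exact absurd (sub_mem p3 h).1 (d13 u hu)
        · exact Or.inl ⟨c1a u hu h1, c2a v hv h2⟩
        · exact Or.inr ⟨c1b u hu h1, c2b v hv h2⟩
      · have hne : u ≠ v := fun e => d12 u hu (e ▸ hv)
        rintro (⟨h1, h2⟩ | ⟨h1, h2⟩)
        · exact Or.inr (Or.inr (Or.inr (Or.inl ⟨hne, Or.inl h1, Or.inr (Or.inl h2)⟩)))
        · exact Or.inr (Or.inr (Or.inr (Or.inr ⟨hne, Or.inl h1, Or.inr (Or.inl h2)⟩))))
    (by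
      intro u (hu : u ∈ p1.support) v (hv : v ∈ p3.support)
      rw [H u v (Or.inl hu) (Or.inr (Or.inr hv))]
      constructor
      · rintro (h | h | h | ⟨-, h1, h2⟩ | ⟨-, h1, h2⟩)
        · exact absurd hv (d13 v (sub_mem p1 h).2)
        · exact absurd (sub_mem p2 h).1 (d12 u hu)
        · exact absurd (sub_mem p3 h).1 (d13 u hu)
        · exact Or.inl ⟨c1a u hu h1, c3a v hv h2⟩
        · exact Or.inr ⟨c1b u hu h1, c3b v hv h2⟩
      · have hne : u ≠ v := fun e => d13 u hu (e ▸ hv)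
        rintro (⟨h1, h2⟩ | ⟨h1, h2⟩)
        · exact Or.inr (Or.inr (Or.inr (Or.inl ⟨hne, Or.inl h1, Or.inr (Or.inr h2)⟩)))
        · exact Or.inr (Or.inr (Or.inr (Or.inr ⟨hne, Or.inl h1, Or.inr (Or.inr h2)⟩))))
    (by
      intro u (hu : u ∈ p2.support) v (hv : v ∈ p3.support)
      rw [H u v (Or.inr (Or.inl hu)) (Or.inr (Or.inr hv))]
      constructor
      · rintro (h | h | h | ⟨-, h1, h2⟩ | ⟨-, h1, h2⟩)
        · exact absurd hu (d12 u (sub_mem p1 h).1)
        · exact absurd hv (d23 v (sub_mem p2 h).2)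
        · exact absurd (sub_mem p3 h).1 (d23 u hu)
        · exact Or.inl ⟨c2a u hu h1, c3a v hv h2⟩
        · exact Or.inr ⟨c2b u hu h1, c3b v hv h2⟩
      · have hne : u ≠ v := fun e => d23 u hu (e ▸ hv)
        rintro (⟨h1, h2⟩ | ⟨h1, h2⟩)
        · exact Or.inr (Or.inr (Or.inr (Or.inl ⟨hne, Or.inr (Or.inl h1), Or.inr (Or.inr h2)⟩)))
        · exact Or.inr (Or.inr (Or.inr (Or.inr ⟨hne, Or.inr (Or.inl h1), Or.inr (Or.inr h2)⟩))))
  exact hN.mk3 hpr ⟨Nat.odd_iff.2 l1, Nat.odd_iff.2 l2, Nat.odd_iff.2 l3⟩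

end Pool.Agent.H29.ERO
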