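import Pool.Agent.H29.ERO.TRL
import Pool.Agent.H81.ER.HNO

/-!
# MP_816b90_co, only-if direction: antiholes have no even pair (AHE)
-/

set_option autoImplicit false

open Pool.Agent.H48.ER

namespace Pool.Agent.H29.ERO

/-- the other neighbours of two consecutive vertices of a cycle -/
theorem cyc_nb (n : ℕ) (hn : 3 ≤ n) (X Y : Fin (n + 2))
    (h : X.val + 1 = Y.val ∨ (Y.val = 0 ∧ X.val = n + 1)) :
    ∃ A B : Fin (n + 2), ¬ (SimpleGraph.cycleGraph (n + 2)).Adj X A ∧ X ≠ A ∧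
      ¬ (SimpleGraph.cycleGraph (n + 2)).Adj A B ∧ A ≠ B ∧
      ¬ (SimpleGraph.cycleGraph (n + 2)).Adj B Y ∧ B ≠ Y ∧
      (SimpleGraph.cycleGraph (n + 2)).Adj X B ∧ (SimpleGraph.cycleGraph (n + 2)).Adj A Y := by
  have hne : ∀ i j : Fin (n + 2), i ≠ j ↔ i.val ≠ j.val := fun i j => by
    rw [Ne, Fin.ext_iff]
  have hX := X.isLt
  have hY := Y.isLt
  obtain ⟨α, hα, hα'⟩ : ∃ α, α < n + 2 ∧
      ((Y.val + 1 = n + 2 ∧ α = 0) ∨ (Y.val + 1 < n + 2 ∧ α = Y.val + 1)) := by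
    by_cases h1 : Y.val + 1 = n + 2
    · exact ⟨0, by omega, Or.inl ⟨h1, rfl⟩⟩
    · exact ⟨Y.val + 1, by omega, Or.inr ⟨by omega, rfl⟩⟩
  obtain ⟨β, hβ, hβ'⟩ : ∃ β, β < n + 2 ∧
      ((X.val = 0 ∧ β = n + 1) ∨ (0 < X.val ∧ β + 1 = X.val)) := by
    by_cases h1 : X.val = 0
    · exact ⟨n + 1, by omega, Or.inl ⟨h1, rfl⟩⟩
    · exact ⟨X.val - 1, by omega, Or.inr ⟨by omega, by omega⟩⟩
  refine ⟨⟨α, hα⟩, ⟨β, hβ⟩, ?_, ?_, ?_, ?_, ?_, ?_, ?_, ?_⟩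
  all_goals simp only [Pool.Agent.H81.ER.cyc_adj, hne]
  all_goals omega

theorem pf_AHE : T_AHE := by
  intro V G k x y hk hiso hev
  obtain ⟨e⟩ := hiso
  obtain ⟨n, rfl⟩ : ∃ n, k = n + 2 := ⟨k - 2, by omega⟩
  have hc : ∀ A B : Fin (n + 2), G.Adj (e A) (e B) ↔
      A ≠ B ∧ ¬ (SimpleGraph.cycleGraph (n + 2)).Adj A B := by
    intro A B
    rw [e.map_rel_iff, SimpleGraph.compl_adj]
  -- the statement for consecutive vertices
  have key : ∀ X Y : Fin (n + 2), EvP G (e X) (e Y) →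
      (X.val + 1 = Y.val ∨ (Y.val = 0 ∧ X.val = n + 1)) → False := by
    intro X Y h hXY
    obtain ⟨A, B, h1, h2, h3, h4, h5, h6, h7, h8⟩ := cyc_nb n (by omega) X Y hXY
    exact no3 h ((hc X A).2 ⟨h2, h1⟩) ((hc A B).2 ⟨h4, h3⟩) ((hc B Y).2 ⟨h6, h5⟩)
      (fun h9 => ((hc X B).1 h9).2 h7) (fun h9 => ((hc A Y).1 h9).2 h8)
  obtain ⟨X, rfl⟩ := e.surjective x
  obtain ⟨Y, rfl⟩ := e.surjective y
  have hXY : X ≠ Y := fun h => hev.1 (by rw [h])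
  have hadj : (SimpleGraph.cycleGraph (n + 2)).Adj X Y := by
    by_contra h
    exact hev.2.1 ((hc X Y).2 ⟨hXY, h⟩)
  rw [Pool.Agent.H81.ER.cyc_adj] at hadj
  rcases hadj.1 with h | h | h | h
  · exact key X Y hev (Or.inl h)
  · exact key Y X (evp_symm hev) (Or.inl h)
  · exact key Y X (evp_symm hev) (Or.inr h)
  · exact key X Y hev (Or.inr h)

end Pool.Agent.H29.ERO
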