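import Pool.Agent.H29.ERO.Targets
import Pool.Agent.H48.ER.Lib

/-!
# MP_816b90_co, only-if direction: connection with the form of the problem (FRE, PUL, INP)
-/

set_option autoImplicit false

open Pool.Agent.H48.ER

namespace Pool.Agent.H29.ERO

theorem pf_FRE : T_FRE := by
  intro k H x y φ hxy hφ hφe
  have hex : ∀ a, ∃ u, u ≠ y ∧ φ u = a := by
    intro a
    obtain ⟨u, hu⟩ := hφ a
    by_cases h : u = y
    · refine ⟨x, hxy, ?_⟩
      rw [← hu, h]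
      exact (hφe x y).2 (Or.inr (Or.inl ⟨rfl, rfl⟩))
    · exact ⟨u, h, hu⟩
  choose ψ hψ1 hψ2 using hex
  have hback : ∀ u, u ≠ y → ψ (φ u) = u := by
    intro u hu
    rcases (hφe _ _).1 (hψ2 (φ u)) with h | ⟨-, h⟩ | ⟨h, -⟩
    · exact h
    · exact absurd h hu
    · exact absurd h (hψ1 _)
  have hbacky : ψ (φ y) = x := by
    rcases (hφe _ _).1 (hψ2 (φ y)) with h | ⟨h, -⟩ | ⟨h, -⟩
    · exact absurd h (hψ1 _)
    · exact h
    · exact absurd h (hψ1 _)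
  have hinj : Function.Injective ψ := by
    intro a b h
    rw [← hψ2 a, ← hψ2 b, h]
  have key : ∀ a b, a ≠ b → (∃ u v : Fin (k + 1), φ u = a ∧ φ v = b ∧ H.Adj u v) →
      (ctr H x y).Adj (ψ a) (ψ b) := by
    rintro a b hab ⟨u, v, rfl, rfl, h⟩
    refine ⟨fun e => hab (hinj e), hψ1 _, hψ1 _, ?_⟩
    by_cases hu : u = y
    · have hv : v ≠ y := fun e => H.loopless.irrefl y (by rw [hu, e] at h; exact h)
      subst hu
      rw [hback v hv]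
      exact Or.inr (Or.inl ⟨hbacky, h⟩)
    · by_cases hv : v = y
      · subst hv
        rw [hback u hu]
        exact Or.inr (Or.inr ⟨hbacky, h⟩)
      · rw [hback u hu, hback v hv]
        exact Or.inl h
  refine ⟨ψ, hinj, fun u hu => ⟨φ u, hback u hu⟩, ?_⟩
  ext a b
  rw [SimpleGraph.fromRel_adj]
  constructor
  · rintro ⟨hab, h | h⟩
    · exact key a b hab h
    · exact (key b a hab.symm h).symm
  · intro h
    have h' : (ctr H x y).Adj (ψ a) (ψ b) := h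
    obtain ⟨h1, -, -, h2⟩ := h'
    have hyx : φ y = φ x := (hφe y x).2 (Or.inr (Or.inr ⟨rfl, rfl⟩))
    refine ⟨fun e => h1 (by rw [e]), Or.inl ?_⟩
    rcases h2 with h2 | ⟨h2, h3⟩ | ⟨h2, h3⟩
    · exact ⟨_, _, hψ2 a, hψ2 b, h2⟩
    · exact ⟨y, _, by rw [hyx, ← h2, hψ2], hψ2 b, h3⟩
    · exact ⟨_, y, hψ2 a, by rw [hyx, ← h2, hψ2], h3⟩

/-- paths in induced subgraphs -/
theorem ip_pull {V W : Type} {G : SimpleGraph V} {ψ : W → V} (hψ : Function.Injective ψ) {n : ℕ}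
    {x y : V} {R : Set V} (h : IP G n x y R) (hR : ∀ v ∈ R, ∃ a, ψ a = v) {x' y' : W}
    (hx : ψ x' = x) (hy : ψ y' = y) : IP (G.comap ψ) n x' y' (ψ ⁻¹' R) := by
  obtain ⟨g, g0, gn, gi, ga, rfl⟩ := h
  have hex : ∀ i, ∃ a : W, i ≤ n → ψ a = g i := by
    intro i
    by_cases hi : i ≤ n
    · obtain ⟨a, ha⟩ := hR (g i) ⟨i, hi, rfl⟩
      exact ⟨a, fun _ => ha⟩
    · exact ⟨x', fun h => absurd h hi⟩
  choose f hf using hex
  refine ⟨f, ?_, ?_, ?_, ?_, ?_⟩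
  · exact hψ (by rw [hf 0 (Nat.zero_le _), g0, hx])
  · exact hψ (by rw [hf n le_rfl, gn, hy])
  · intro i j hi hj e
    exact gi i j hi hj (by rw [← hf i hi, ← hf j hj, e])
  · intro i j hi hj
    rw [SimpleGraph.comap_adj, hf i hi, hf j hj]
    exact ga i j hi hj
  · ext v
    constructor
    · rintro ⟨i, hi, e⟩
      exact ⟨i, hi, hψ (by rw [hf i hi, e])⟩
    · rintro ⟨i, hi, rfl⟩
      exact ⟨i, hi, (hf i hi).symm⟩

/-- prisms in induced subgraphs -/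
theorem prism_pull {V W : Type} {G : SimpleGraph V} {ψ : W → V} (hψ : Function.Injective ψ)
    {a b : Fin 3 → V} {n : Fin 3 → ℕ} {P : Fin 3 → Set V} (h : Prism G a b n P)
    (hR : ∀ v ∈ ver P, ∃ c, ψ c = v) {a' b' : Fin 3 → W} (ha : ∀ i, ψ (a' i) = a i)
    (hb : ∀ i, ψ (b' i) = b i) : Prism (G.comap ψ) a' b' n (fun i => ψ ⁻¹' P i) where
  ip i := ip_pull hψ (h.ip i) (fun v hv => hR v ⟨i, hv⟩) (ha i) (hb i)
  pos := h.pos
  dis i j hij := by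
    rw [Set.disjoint_left]
    intro v hv hv'
    exact Set.disjoint_left.1 (h.dis i j hij) hv hv'
  adj i j hij u hu v hv := by
    rw [SimpleGraph.comap_adj, h.adj i j hij _ hu _ hv, ← ha, ← ha, ← hb, ← hb, hψ.eq_iff,
      hψ.eq_iff, hψ.eq_iff, hψ.eq_iff]

theorem pf_PUL : T_PUL := by
  intro V W G ψ hψ hsup hO
  obtain ⟨a, b, n, P, h, hodd, hT⟩ := hO
  have hR : ∀ v ∈ ver P, ∃ c, ψ c = v := by
    rintro v ⟨i, hv⟩
    obtain ⟨g, g0, gn, gi, ga, hP⟩ := h.ip i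
    rw [hP] at hv
    obtain ⟨t, ht, rfl⟩ := hv
    have hpos := h.pos i
    by_cases h0 : t = 0
    · subst h0
      exact hsup _ _ ((ga 0 1 (by omega) hpos).2 (by omega))
    · exact hsup _ _ ((ga t (t - 1) ht (by omega)).2 (by omega))
  have hea : ∀ i, ∃ c, ψ c = a i := fun i => hR _ ⟨i, h.a_mem i⟩
  have heb : ∀ i, ∃ c, ψ c = b i := fun i => hR _ ⟨i, h.b_mem i⟩
  choose a' ha using hea
  choose b' hb using heb
  refine ⟨a', b', n, _, prism_pull hψ h hR ha hb, hodd, ?_⟩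
  intro u v w h1 h2 h3
  rcases hT _ _ _ h1 h2 h3 with ⟨⟨i, hi⟩, ⟨j, hj⟩, ⟨k, hk⟩⟩ | ⟨⟨i, hi⟩, ⟨j, hj⟩, ⟨k, hk⟩⟩
  · exact Or.inl ⟨⟨i, hψ ((ha i).trans hi)⟩, ⟨j, hψ ((ha j).trans hj)⟩,
      ⟨k, hψ ((ha k).trans hk)⟩⟩
  · exact Or.inr ⟨⟨i, hψ ((hb i).trans hi)⟩, ⟨j, hψ ((hb j).trans hj)⟩,
      ⟨k, hψ ((hb k).trans hk)⟩⟩

/-- the triangles in a prism -/
theorem tri_prism {V : Type} {G : SimpleGraph V} {a b : Fin 3 → V} {n : Fin 3 → ℕ}
    {P : Fin 3 → Set V} (h : Prism G a b n P) {u v w : V} (hu : u ∈ ver P) (hv : v ∈ ver P)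
    (hw : w ∈ ver P) (h1 : G.Adj u v) (h2 : G.Adj v w) (h3 : G.Adj u w) :
    ((∃ i, a i = u) ∧ (∃ i, a i = v) ∧ ∃ i, a i = w) ∨
    ((∃ i, b i = u) ∧ (∃ i, b i = v) ∧ ∃ i, b i = w) := by
  obtain ⟨i, hu⟩ := hu
  obtain ⟨j, hv⟩ := hv
  obtain ⟨k, hw⟩ := hw
  -- two vertices of a rung and one of another rung
  have two : ∀ (i j : Fin 3) (x y z : V), i ≠ j → x ∈ P i → y ∈ P i → z ∈ P j → G.Adj x y →
      G.Adj x z → G.Adj y z → False := by
    intro i j x y z hij hx hy hz e1 e2 e3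
    rw [h.adj i j hij x hx z hz] at e2
    rw [h.adj i j hij y hy z hz] at e3
    rcases e2 with ⟨c1, c2⟩ | ⟨c1, c2⟩ <;> rcases e3 with ⟨d1, d2⟩ | ⟨d1, d2⟩
    · exact e1.ne (c1.trans d1.symm)
    · exact h.a_ne_b j j (c2.symm.trans d2)
    · exact h.a_ne_b j j (d2.symm.trans c2)
    · exact e1.ne (c1.trans d1.symm)
  by_cases hij : i = j
  · subst hij
    by_cases hik : i = k
    · subst hik
      exfalso
      obtain ⟨g, g0, gn, gi, ga, hP⟩ := h.ip i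
      rw [hP] at hu hv hw
      obtain ⟨s, hs, rfl⟩ := hu
      obtain ⟨t, ht, rfl⟩ := hv
      obtain ⟨r, hr, rfl⟩ := hw
      rw [ga s t hs ht] at h1
      rw [ga t r ht hr] at h2
      rw [ga s r hs hr] at h3
      omega
    · exact (two i k u v w hik hu hv hw h1 h3 h2).elim
  · by_cases hik : i = k
    · subst hik
      exact (two i j u w v hij hu hw hv h3 h1 h2.symm).elim
    · by_cases hjk : j = k
      · subst hjk
        exact (two j i v w u (Ne.symm hij) hv hw hu h2 h1.symm h3.symm).elim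
      · rw [h.adj i j hij u hu v hv] at h1
        rw [h.adj j k hjk v hv w hw] at h2
        rw [h.adj i k hik u hu w hw] at h3
        rcases h1 with ⟨c1, c2⟩ | ⟨c1, c2⟩
        · rcases h2 with ⟨d1, d2⟩ | ⟨d1, d2⟩
          · exact Or.inl ⟨⟨i, c1.symm⟩, ⟨j, c2.symm⟩, ⟨k, d2.symm⟩⟩
          · exact (h.a_ne_b j j (c2.symm.trans d1)).elim
        · rcases h2 with ⟨d1, d2⟩ | ⟨d1, d2⟩
          · exact (h.a_ne_b j j (d1.symm.trans c2)).elim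
          · exact Or.inr ⟨⟨i, c1.symm⟩, ⟨j, c2.symm⟩, ⟨k, d2.symm⟩⟩

theorem pf_INP : T_INP := by
  intro m G hno
  obtain ⟨a, b, n, P, h, hodd⟩ : ∃ (a b : Fin 3 → Fin m) (n : Fin 3 → ℕ)
      (P : Fin 3 → Set (Fin m)), Prism G a b n P ∧ ∀ i, Odd (n i) := by
    by_contra hcon
    exact hno fun a b n P h hodd => hcon ⟨a, b, n, P, h, hodd⟩
  have hfin : Finite (ver P) := Set.toFinite _
  obtain ⟨k, ⟨f⟩⟩ := Finite.exists_equiv_fin (ver P)
  obtain ⟨e, he⟩ : ∃ e : Fin k ↪ Fin m, ∀ c, e c = (f.symm c : Fin m) :=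
    ⟨⟨fun c => (f.symm c : Fin m), fun c d h => f.symm.injective (Subtype.ext h)⟩, fun _ => rfl⟩
  have hmem : ∀ c, e c ∈ ver P := fun c => by rw [he]; exact (f.symm c).2
  have hR : ∀ v ∈ ver P, ∃ c, e c = v := fun v hv =>
    ⟨f ⟨v, hv⟩, by rw [he, Equiv.symm_apply_apply]⟩
  have hea : ∀ i, ∃ c, e c = a i := fun i => hR _ ⟨i, h.a_mem i⟩
  have heb : ∀ i, ∃ c, e c = b i := fun i => hR _ ⟨i, h.b_mem i⟩
  choose a' ha using hea
  choose b' hb using heb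
  refine ⟨k, e, a', b', n, _, prism_pull e.injective h hR ha hb, hodd, ?_⟩
  intro u v w h1 h2 h3
  rcases tri_prism h (hmem u) (hmem v) (hmem w) h1 h2 h3 with
    ⟨⟨i, hi⟩, ⟨j, hj⟩, ⟨l, hl⟩⟩ | ⟨⟨i, hi⟩, ⟨j, hj⟩, ⟨l, hl⟩⟩
  · exact Or.inl ⟨⟨i, e.injective ((ha i).trans hi)⟩, ⟨j, e.injective ((ha j).trans hj)⟩,
      ⟨l, e.injective ((ha l).trans hl)⟩⟩
  · exact Or.inr ⟨⟨i, e.injective ((hb i).trans hi)⟩, ⟨j, e.injective ((hb j).trans hj)⟩,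
      ⟨l, e.injective ((hb l).trans hl)⟩⟩

end Pool.Agent.H29.ERO
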