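import Pool.Agent.H29.ERO.Targets
import Pool.Agent.H48.ER.Lib
import Pool.Agent.H81.ER.HNO

/-!
# MP_816b90_co, only-if direction: odd holes and antiholes have no even pair (OHE, CYC, AHE)
-/

set_option autoImplicit false

open Pool.Agent.H48.ER

namespace Pool.Agent.H29.ERO

theorem pf_OHE (hROT : T_ROT) : T_OHE := by
  intro V G x y hH hev
  obtain ⟨n, u, v, c, R, hR, hodd, hn, hc, hcu, hcv, hcw, hall⟩ := hH
  -- the vertex `x` as apex
  obtain ⟨u', v', R', hR', hx, hall', hxu, hxv, hxw⟩ : ∃ (u' v' : V) (R' : Set V),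
      IP G n u' v' R' ∧ x ∉ R' ∧ (∀ w, w = x ∨ w ∈ R') ∧ G.Adj x u' ∧ G.Adj x v' ∧
        ∀ t ∈ R', G.Adj x t → t = u' ∨ t = v' := by
    rcases hall x with rfl | hx
    · exact ⟨u, v, R, hR, hc, hall, hcu, hcv, hcw⟩
    · obtain ⟨u', v', R', h1, h2, h3, h4, h5, h6⟩ :=
        hROT V G n u v c R hR hn hc hcu hcv hcw x hx
      refine ⟨u', v', R', h1, h2, fun w => ?_, h4, h5, h6⟩
      have h7 : w ∈ insert x R' := by
        rw [h3]
        exact hall w
      exact h7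
  have hy : y ∈ R' := (hall' y).resolve_left hev.1.symm
  have hyu : y ≠ u' := fun e => hev.2.1 (e ▸ hxu)
  have hyv : y ≠ v' := fun e => hev.2.1 (e ▸ hxv)
  obtain ⟨i, j, R1, R2, r1, r2, hij, hU, hI, -⟩ := hR'.split hy
  have e12 : ∀ w, w ∈ R1 → w ∈ R2 → w = y := fun w h1 h2 => by
    have h3 : w ∈ R1 ∩ R2 := ⟨h1, h2⟩
    rw [hI] at h3
    exact h3
  have s1 : R1 ⊆ R' := by rw [← hU]; exact Set.subset_union_left
  have s2 : R2 ⊆ R' := by rw [← hU]; exact Set.subset_union_right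
  have p1 : IP G (i + 1) x y (insert x R1) := by
    refine r1.cons (fun h => hx (s1 h)) fun w hw => ⟨fun h => ?_, fun h => h ▸ hxu⟩
    rcases hxw w (s1 hw) h with h1 | h1
    · exact h1
    · exact absurd (e12 v' (h1 ▸ hw) r2.right_mem).symm hyv
  have p2 : IP G (j + 1) x y (insert x R2) := by
    refine r2.rev.cons (fun h => hx (s2 h)) fun w hw => ⟨fun h => ?_, fun h => h ▸ hxv⟩
    rcases hxw w (s2 hw) h with h1 | h1
    · exact absurd (e12 u' r1.left_mem (h1 ▸ hw)).symm hyu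
    · exact h1
  have q1 := hev.2.2 _ _ p1
  have q2 := hev.2.2 _ _ p2
  rw [Nat.even_iff] at q1 q2
  rw [Nat.odd_iff] at hodd
  omega

theorem pf_CYC : T_CYC := by
  intro k hk hodd
  obtain ⟨n, rfl⟩ : ∃ n, k = n + 2 := ⟨k - 2, by omega⟩
  have hne : ∀ i j : Fin (n + 2), i ≠ j ↔ i.val ≠ j.val := fun i j => by
    rw [Ne, Fin.ext_iff]
  -- the vertices `0, ..., n` and the apex `n + 1`
  have hval : ∀ t, t ≤ n → t % (n + 2) = t := fun t ht => Nat.mod_eq_of_lt (by omega)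
  refine ⟨n, ⟨0, by omega⟩, ⟨n, by omega⟩, ⟨n + 1, by omega⟩, {v | v.val ≤ n},
    ⟨fun t => ⟨t % (n + 2), Nat.mod_lt _ (by omega)⟩, ?_, ?_, ?_, ?_, ?_⟩, ?_, by omega, ?_, ?_,
    ?_, ?_, ?_⟩
  · exact Fin.ext (Nat.zero_mod _)
  · exact Fin.ext (hval n le_rfl)
  · intro i j hi hj e
    have h1 := congrArg Fin.val e
    simp only [hval i hi, hval j hj] at h1
    exact h1
  · intro i j hi hj
    rw [Pool.Agent.H81.ER.cyc_adj, hne]
    simp only [hval i hi, hval j hj]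
    omega
  · ext v
    constructor
    · intro hv
      exact ⟨v.val, hv, Fin.ext (hval _ hv)⟩
    · rintro ⟨i, hi, rfl⟩
      change i % (n + 2) ≤ n
      rw [hval i hi]
      exact hi
  · rw [Nat.odd_iff]
    omega
  · intro h
    have h1 : n + 1 ≤ n := h
    omega
  · rw [Pool.Agent.H81.ER.cyc_adj, hne]
    refine ⟨Or.inr (Or.inr (Or.inr ⟨rfl, rfl⟩)), ?_⟩
    change n + 1 ≠ 0
    omega
  · rw [Pool.Agent.H81.ER.cyc_adj, hne]
    refine ⟨Or.inr (Or.inl rfl), ?_⟩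
    change n + 1 ≠ n
    omega
  · intro w hw h
    have hw' : w.val ≤ n := hw
    rw [Pool.Agent.H81.ER.cyc_adj, hne] at h
    simp only at h
    rcases Nat.eq_zero_or_pos w.val with h0 | h0
    · exact Or.inl (Fin.ext h0)
    · refine Or.inr (Fin.ext ?_)
      simp only
      omega
  · intro w
    by_cases h : w.val ≤ n
    · exact Or.inr h
    · refine Or.inl (Fin.ext ?_)
      have := w.isLt
      simp only
      omega

end Pool.Agent.H29.ERO
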