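import Pool.Agent.H29.ERO.Targets
import Pool.Agent.H48.ER.Lib
import Pool.Agent.H55.ER.IND
import Pool.Agent.H81.ER.HNO

/-!
# MP_816b90_co, only-if direction: assembly (OIF)
-/

set_option autoImplicit false

open Pool.Agent.H48.ER

namespace Pool.Agent.H29.ERO

theorem evp_walk (hWLK : T_WLK) {V : Type} {H : SimpleGraph V} {x y : V} (hxy : x ≠ y)
    (hadj : ¬ H.Adj x y)
    (hw : ∀ p : H.Walk x y, p.IsPath →
      (∀ i j : ℕ, i + 1 < j → j ≤ p.length → ¬ H.Adj (p.getVert i) (p.getVert j)) →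
      p.length % 2 = 0) : EvP H x y := by
  refine ⟨hxy, hadj, fun n R hR => ?_⟩
  obtain ⟨p, h1, h2, -, h3, -⟩ := (hWLK V H x y).2 n R hR
  rw [Nat.even_iff, ← h2]
  exact hw p h1 h3

theorem noh_comap {V W : Type} {G : SimpleGraph V} {ψ : W → V} (hψ : Function.Injective ψ)
    (h : NOH G) : NOH (G.comap ψ) := by
  intro n u v c R hR hn hc hu hv hw
  refine h n (ψ u) (ψ v) (ψ c) (ψ '' R) (Pool.Agent.H55.ER.ip_IND G ψ hψ n u v R hR) hn ?_ hu hv ?_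
  · rintro ⟨d, hd, hdc⟩
    rw [hψ hdc] at hd
    exact hc hd
  · rintro _ ⟨w, hwR, rfl⟩ hcw
    rcases hw w hwR hcw with h | h
    · exact Or.inl (congrArg ψ h)
    · exact Or.inr (congrArg ψ h)

theorem comap_emb {V W : Type} {G : SimpleGraph V} {H : SimpleGraph W} (f : H ↪g G) :
    SimpleGraph.comap (fun i : W => f.toEmbedding i) G = H := by
  ext a b
  exact f.map_rel_iff

theorem top_hole (k : ℕ) : ¬ IsOddHole (⊤ : SimpleGraph (Fin k)) := by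
  rintro ⟨n, u, v, c, R, hR, -, hn, -⟩
  have h1 : u ≠ v := hR.ne (by omega)
  have h2 := hR.adj_iff.1 h1
  omega

theorem top_antihole (k : ℕ) :
    ¬ ∃ j, 5 ≤ j ∧ Nonempty ((SimpleGraph.cycleGraph j)ᶜ ≃g (⊤ : SimpleGraph (Fin k))) := by
  rintro ⟨j, hj, ⟨e⟩⟩
  obtain ⟨n, rfl⟩ : ∃ n, j = n + 2 := ⟨j - 2, by omega⟩
  have h1 : (SimpleGraph.cycleGraph (n + 2)).Adj ⟨0, by omega⟩ ⟨1, by omega⟩ := by
    rw [Pool.Agent.H81.ER.cyc_adj]
    exact ⟨Or.inl rfl, fun h => by simp at h⟩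
  have h2 : (⊤ : SimpleGraph (Fin k)).Adj (e ⟨0, by omega⟩) (e ⟨1, by omega⟩) := by
    intro h
    exact h1.ne (e.injective h)
  have h3 := e.map_rel_iff.1 h2
  exact h3.2 h1

theorem top_prism (k : ℕ) : ¬ OddPr (⊤ : SimpleGraph (Fin k)) := by
  rintro ⟨a, b, n, P, h, -, -⟩
  have h1 : (⊤ : SimpleGraph (Fin k)).Adj (a 0) (b 1) := h.a_ne_b 0 1
  rw [h.adj 0 1 (by decide) _ (h.a_mem 0) _ (h.b_mem 1)] at h1
  rcases h1 with ⟨-, h2⟩ | ⟨h2, -⟩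
  · exact h.a_ne_b 1 1 h2.symm
  · exact h.a_ne_b 0 0 h2

theorem pf_OIF (hWLK : T_WLK) (hHNO : T_HNO) (hCNH : T_CNH) (hOHE : T_OHE) (hAHE : T_AHE)
    (hCYC : T_CYC) (hPRC : T_PRC) (hONE : T_ONE) (hFRE : T_FRE) (hPUL : T_PUL) (hINP : T_INP) :
    T_OIF := by
  intro m G hG
  have c1 : NoOddHole G := by
    rintro ⟨k, hk, hodd, ⟨f⟩⟩
    have h1 := hG k f.toEmbedding (fun j H => ¬ IsOddHole H)
      ⟨fun j => top_hole j, fun j H x y φ hxy hadj hw _ _ _ hH =>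
        hOHE _ H x y hH (evp_walk hWLK hxy hadj hw)⟩
    apply h1
    rw [comap_emb f]
    exact hCYC k hk hodd
  have c2 : NoAntihole G := by
    rintro ⟨k, hk, ⟨f⟩⟩
    have h1 := hG k f.toEmbedding
      (fun j H => ¬ ∃ l, 5 ≤ l ∧ Nonempty ((SimpleGraph.cycleGraph l)ᶜ ≃g H))
      ⟨fun j => top_antihole j, fun j H x y φ hxy hadj hw _ _ _ hH => by
        obtain ⟨l, hl, hi⟩ := hH
        exact hAHE _ H l x y hl hi (evp_walk hWLK hxy hadj hw)⟩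
    apply h1
    rw [comap_emb f]
    exact ⟨k, hk, ⟨SimpleGraph.Iso.refl⟩⟩
  refine ⟨c1, c2, hPRC m G ?_⟩
  by_contra hno
  obtain ⟨k, e, hO⟩ := hINP m G hno
  have h1 := hG k e (fun j H => ¬ (NOH H ∧ OddPr H)) ⟨fun j hj => top_prism j hj.2, ?_⟩
  · exact h1 ⟨noh_comap e.injective (hHNO m G c1), hO⟩
  · rintro j H x y φ hxy hadj hw hφ hφe hP ⟨h2, h3⟩
    have hev := evp_walk hWLK hxy hadj hw
    obtain ⟨ψ, hψ, hψs, hC⟩ := hFRE j H x y φ hxy hφ hφe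
    rw [hC] at hP
    exact hP ⟨noh_comap hψ (hCNH _ H x y h2 hev), hPUL _ _ _ ψ hψ
      (fun u v huv => hψs u huv.2.1) (hONE _ H x y h2 h3 hev)⟩

end Pool.Agent.H29.ERO
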