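import Pool.Agent.H29.ERO.RPL

/-!
# MP_816b90_co, only-if direction: one contraction (ONE)
-/

set_option autoImplicit false

open Pool.Agent.H48.ER

namespace Pool.Agent.H29.ERO

variable {V : Type} {G : SimpleGraph V} {a b : Fin 3 → V} {n : Fin 3 → ℕ} {P : Fin 3 → Set V}
  {p q : V}

/-- the prism is not changed -/
theorem persist (hev : EvP G p q) (h : Prism G a b n P) (hno : ¬ (p ∈ ver P ∧ q ∈ ver P))
    (hA : ∀ g ∈ ver P, (q ∈ ver P → G.Adj p g → G.Adj q g) ∧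
      (p ∈ ver P → G.Adj q g → G.Adj p g)) :
    Prism (ctr G p q) (fun k => idn p q (a k)) (fun k => idn p q (b k)) n
      (fun k => idn p q '' P k) := by
  have hpq : p ≠ q := hev.1
  have hinj : Set.InjOn (idn p q) (ver P) := by
    intro u hu v hv e
    rcases idn_or p q u with ⟨h1, h2⟩ | ⟨h1, h2⟩ <;> rcases idn_or p q v with ⟨h3, h4⟩ | ⟨h3, h4⟩
    · exact h1.trans h3.symm
    · have h5 : v = p := by rw [← h4, ← e, h2]
      exact (hno ⟨h5 ▸ hv, h1 ▸ hu⟩).elim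
    · have h5 : u = p := by rw [← h2, e, h4]
      exact (hno ⟨h5 ▸ hu, h3 ▸ hv⟩).elim
    · rw [← h2, e, h4]
  refine h.map (idn p q) hinj fun u hu v hv => ⟨?_, fun h1 => ?_⟩
  · -- one vertex is the new vertex
    have hnew : ∀ x ∈ ver P, ∀ y ∈ ver P, idn p q x = p → y ≠ q →
        (ctr G p q).Adj p y → G.Adj x y := by
      intro x hx y hy hxp hyq hadj
      have hyp : y ≠ p := hadj.1.symm
      rw [ctr_adj_left hyp hyq hpq] at hadj
      rcases idn_or p q x with ⟨h1, -⟩ | ⟨h1, h2⟩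
      · subst h1
        rcases hadj with h3 | h3
        · exact (hA y hy).1 hx h3
        · exact h3
      · have h3 : x = p := h2.symm.trans hxp
        subst h3
        rcases hadj with h3 | h3
        · exact h3
        · exact (hA y hy).2 hx h3
    intro hadj
    rcases idn_or p q u with ⟨h1, h2⟩ | ⟨h1, h2⟩ <;> rcases idn_or p q v with ⟨h3, h4⟩ | ⟨h3, h4⟩
    · exact (hadj.1 (h2.trans h4.symm)).elim
    · rw [h2, h4] at hadj
      exact hnew u hu v hv h2 h3 hadj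
    · rw [h2, h4] at hadj
      exact (hnew v hv u hu h4 h1 hadj.symm).symm
    · rw [h2, h4] at hadj
      by_cases hup : u = p
      · rw [hup] at hadj
        exact hnew u hu v hv (h2.trans hup) h3 hadj
      by_cases hvp : v = p
      · rw [hvp] at hadj
        exact (hnew v hv u hu (h4.trans hvp) h1 hadj.symm).symm
      exact (ctr_adj_of_ne hup h1 hvp h3).1 hadj
  · refine ctr_idn hpq h1 fun e => ?_
    exact h1.ne (hinj hu hv e)

theorem stable_of_tr (h : Prism G a b n P) (hT : TR G a b) {t : V} (ht : t ∉ ver P) :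
    ∀ g ∈ ver P, ∀ g' ∈ ver P, G.Adj t g → G.Adj t g' → ¬ G.Adj g g' := by
  intro g _ g' _ h1 h2 h3
  rcases hT t g g' h1 h3 h2 with ⟨⟨i, hi⟩, -⟩ | ⟨⟨i, hi⟩, -⟩
  · exact ht ⟨i, hi ▸ h.a_mem i⟩
  · exact ht ⟨i, hi ▸ h.b_mem i⟩

/-- one vertex of the pair is in the prism -/
theorem one_in (hSTB : T_STB) (hOUT : T_OUT) (hG : NOH G) {s t : V} (hev : EvP G s t)
    (h : Prism G a b n P) (hodd : ∀ i, Odd (n i)) (hT : TR G a b) {i : Fin 3} (hs : s ∈ P i)
    (ht : t ∉ ver P) :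
    (∀ g ∈ ver P, G.Adj t g → g ∈ P i) ∨ ∀ g ∈ ver P, G.Adj t g → G.Adj s g := by
  have hst := stable_of_tr h hT ht
  have hrung := hSTB V G a b n P t hG h ht hst
  by_cases hex : ∃ g ∈ P i, G.Adj t g
  · obtain ⟨g, hg, htg⟩ := hex
    left
    rintro g' ⟨j, hj⟩ htg'
    rw [hrung i j g g' hg hj htg htg']
    exact hj
  · right
    rintro g ⟨j, hj⟩ htg
    have hij : i ≠ j := fun e => hex ⟨g, e ▸ hj, htg⟩
    refine hOUT V G s t a b n P i j hG hev h hodd hs ht hij ?_ hst g ⟨j, hj⟩ htg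
    rintro g' ⟨k, hk⟩ htg'
    rw [hrung j k g g' hj hk htg htg']
    exact hk

theorem pf_ONE (hTRL : T_TRL) (hBTH : T_BTH) (hRPL : T_RPL) (hOUT : T_OUT) (hSTB : T_STB) :
    T_ONE := by
  intro V G p q hG hO hev
  obtain ⟨a, b, n, P, h, hodd, hT⟩ := hO
  have hT' := hTRL V G p q a b hev hT
  have done : (∃ (n' : Fin 3 → ℕ) (P' : Fin 3 → Set V), (∀ i, Odd (n' i)) ∧
      Prism (ctr G p q) (fun i => idn p q (a i)) (fun i => idn p q (b i)) n' P') →
      OddPr (ctr G p q) := by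
    rintro ⟨n', P', h1, h2⟩
    exact ⟨_, _, n', P', h2, h1, hT'⟩
  have hrp : ∀ i, p ∈ P i → ∀ k, k ≠ i → p ∉ P k := fun i hi k hk hk' => hk (h.rung hk' hi)
  have hrq : ∀ i, q ∈ P i → ∀ k, k ≠ i → q ∉ P k := fun i hi k hk hk' => hk (h.rung hk' hi)
  have hnp : ∀ i, p ∈ P i → ∀ k, k ≠ i → ∀ v ∈ P k, G.Adj p v →
      (v = a k ∧ idn p q (a i) = p) ∨ (v = b k ∧ idn p q (b i) = p) := by
    intro i hi k hk v hv h1
    rw [h.adj i k hk.symm p hi v hv] at h1
    rcases h1 with ⟨h1, h2⟩ | ⟨h1, h2⟩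
    · exact Or.inl ⟨h2, by rw [← h1]; exact idn_ne hev.1⟩
    · exact Or.inr ⟨h2, by rw [← h1]; exact idn_ne hev.1⟩
  have hnq : ∀ i, q ∈ P i → ∀ k, k ≠ i → ∀ v ∈ P k, G.Adj q v →
      (v = a k ∧ idn p q (a i) = p) ∨ (v = b k ∧ idn p q (b i) = p) := by
    intro i hi k hk v hv h1
    rw [h.adj i k hk.symm q hi v hv] at h1
    rcases h1 with ⟨h1, h2⟩ | ⟨h1, h2⟩
    · exact Or.inl ⟨h2, by rw [← h1]; exact idn_q p q⟩
    · exact Or.inr ⟨h2, by rw [← h1]; exact idn_q p q⟩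
  apply done
  by_cases hp : p ∈ ver P <;> by_cases hq : q ∈ ver P
  · obtain ⟨i, hi⟩ := hp
    obtain ⟨j, hj⟩ := hq
    by_cases hij : i = j
    · subst hij
      exact hRPL V G p q a b n P i hG hev h hodd (Or.inl hi)
        (fun k hk => ⟨hrp i hi k hk, hrq i hj k hk⟩)
        (fun k hk v hv h1 => h1.elim (hnp i hi k hk v hv) (hnq i hj k hk v hv))
    · exfalso
      obtain ⟨⟨m, R, hR, -, hm⟩, -⟩ := hBTH V G a b n P i j p q h hodd hij hi hj hev.2.1
      exact Nat.not_even_iff_odd.2 hm (hev.2.2 m R hR)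
  · obtain ⟨i, hi⟩ := hp
    rcases one_in hSTB hOUT hG hev h hodd hT hi hq with h1 | h1
    · refine hRPL V G p q a b n P i hG hev h hodd (Or.inl hi)
        (fun k hk => ⟨hrp i hi k hk, fun h2 => hq ⟨k, h2⟩⟩) ?_
      rintro k hk v hv (h2 | h2)
      · exact hnp i hi k hk v hv h2
      · exact (h.ne_of_mem hk.symm (h1 v ⟨k, hv⟩ h2) hv rfl).elim
    · exact ⟨n, _, hodd, persist hev h (fun h2 => hq h2.2) fun g hg =>
        ⟨fun h2 => absurd h2 hq, fun _ h2 => h1 g hg h2⟩⟩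
  · obtain ⟨i, hi⟩ := hq
    rcases one_in hSTB hOUT hG (evp_symm hev) h hodd hT hi hp with h1 | h1
    · refine hRPL V G p q a b n P i hG hev h hodd (Or.inr hi)
        (fun k hk => ⟨fun h2 => hp ⟨k, h2⟩, hrq i hi k hk⟩) ?_
      rintro k hk v hv (h2 | h2)
      · exact (h.ne_of_mem hk.symm (h1 v ⟨k, hv⟩ h2) hv rfl).elim
      · exact hnq i hi k hk v hv h2
    · exact ⟨n, _, hodd, persist hev h (fun h2 => hp h2.1) fun g hg =>
        ⟨fun _ h2 => h1 g hg h2, fun h2 => absurd h2 hp⟩⟩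
  · exact ⟨n, _, hodd, persist hev h (fun h2 => hp h2.1) fun g hg =>
      ⟨fun h2 => absurd h2 hq, fun h2 => absurd h2 hp⟩⟩

end Pool.Agent.H29.ERO
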