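import Pool.Agent.H29.ERO.RBD

/-!
# MP_816b90_co, only-if direction: one vertex of the even pair is outside of the prism (OUT)
-/

set_option autoImplicit false

open Pool.Agent.H48.ER

namespace Pool.Agent.H29.ERO

theorem pf_OUT (hTRI : T_TRI) (hEVN : T_EVN) (hBTH : T_BTH) : T_OUT := by
  intro V G s t a b n P i j hG hev h hodd hs ht hij hN hst g0 hg0 hadj
  have htj : t ∉ P j := fun h1 => ht ⟨j, h1⟩
  have hg0j := hN g0 hg0 hadj
  rcases hTRI V G (n j) (a j) (b j) t (P j) (h.ip j) htj ⟨g0, hg0j, hadj⟩ with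
    ⟨g, hAU⟩ | ⟨g, g', hAA⟩ | ⟨g, g', hAN⟩
  · obtain ⟨-, -, -, -, -, -, -, -, -, -, hU⟩ := hAU
    have e0 : g0 = g := (hU g0 hg0j).1 hadj
    subst e0
    by_contra hno
    obtain ⟨-, m, R, hR, hRv, hm⟩ := hBTH V G a b n P i j s g0 h hodd hij hs hg0j hno
    have h1 : IP G (m + 1) s t (insert t R) := by
      refine hR.snoc (fun h2 => ht (hRv h2)) fun w hw => ?_
      constructor
      · intro h2
        exact (hU w (hN w (hRv hw) h2)).1 h2
      · rintro rfl
        exact hadj
    have h2 := hev.2.2 _ _ h1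
    rw [Nat.even_iff] at h2 hm
    omega
  · obtain ⟨i1, j1, R1, R2, r1, r2, -, hR, -, hX, hU⟩ := hAA
    exfalso
    have h1 : G.Adj g g' := (hX g r1.right_mem g' r2.left_mem).2 ⟨rfl, rfl⟩
    have m1 : g ∈ P j := by rw [← hR]; exact Or.inl r1.right_mem
    have m2 : g' ∈ P j := by rw [← hR]; exact Or.inr r2.left_mem
    exact hst g ⟨j, m1⟩ g' ⟨j, m2⟩ ((hU g m1).2 (Or.inl rfl)) ((hU g' m2).2 (Or.inr rfl)) h1
  · obtain ⟨i1, j1, R1, R2, r1, r2, -, hR1, hR2, hd, hne, hU1, hU2⟩ := hAN
    exfalso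
    have t1 : t ∉ R1 := fun h1 => htj (hR1 h1)
    have t2 : t ∉ R2 := fun h1 => htj (hR2 h1)
    have q2 : IP G (j1 + 1) t (b j) (insert t R2) := r2.cons t2 hU2
    have q1 : IP G (i1 + (j1 + 1) + 1) (a j) (b j) (R1 ∪ insert t R2) := by
      refine r1.append q2 ?_ ?_
      · rw [Set.disjoint_left]
        rintro v hv (rfl | hv')
        · exact t1 hv
        · exact Set.disjoint_left.1 hd hv hv'
      · rintro u hu v (rfl | hv)
        · rw [SimpleGraph.adj_comm, hU1 u hu]
          exact ⟨fun h1 => ⟨h1, rfl⟩, fun h1 => h1.1⟩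
        · constructor
          · intro h1
            exact absurd h1 (hne u hu v hv)
          · rintro ⟨-, rfl⟩
            exact absurd hv t2
    have hQ : ∀ v, v ∈ R1 ∪ insert t R2 → v = t ∨ v ∈ P j := by
      rintro v (hv | rfl | hv)
      · exact Or.inr (hR1 hv)
      · exact Or.inl rfl
      · exact Or.inr (hR2 hv)
    have hnew : Prism G a b (Function.update n j (i1 + (j1 + 1) + 1))
        (Function.update P j (R1 ∪ insert t R2)) := by
      refine rebuild h j a b _ _ q1 (by omega) (fun _ _ => rfl) (fun _ _ => rfl)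
        (fun _ _ _ _ _ _ _ _ => Iff.rfl) ?_ ?_
      · intro k hk
        rw [Set.disjoint_left]
        intro v hv hv'
        rcases hQ v hv with rfl | h1
        · exact ht ⟨k, hv'⟩
        · exact h.ne_of_mem hk.symm h1 hv' rfl
      · intro k hk u hu v hv
        rcases hQ u hu with rfl | h1
        · constructor
          · intro h2
            exact (h.ne_of_mem hk.symm (hN v ⟨k, hv⟩ h2) hv rfl).elim
          · rintro (⟨h2, -⟩ | ⟨h2, -⟩)
            · exact (htj (h2 ▸ h.a_mem j)).elim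
            · exact (htj (h2 ▸ h.b_mem j)).elim
        · exact h.adj j k hk.symm u h1 v hv
    have hodd' := all_odd hEVN hG hnew i (by rw [Function.update_of_ne hij]; exact hodd i)
    obtain ⟨⟨m, R, hR, -, hm⟩, -⟩ := hBTH V G a b _ _ i j s t hnew hodd' hij
      (by rw [Function.update_of_ne hij]; exact hs)
      (by rw [Function.update_self]; exact Or.inr (Or.inl rfl)) hev.2.1
    have h2 := hev.2.2 _ _ hR
    rw [Nat.even_iff] at h2
    rw [Nat.odd_iff] at hm
    omega

end Pool.Agent.H29.ERO
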