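import Pool.Agent.H29.ERO.AHE
import Pool.Agent.H29.ERO.FRE
import Pool.Agent.H29.ERO.OHE
import Pool.Agent.H29.ERO.OIF
import Pool.Agent.H29.ERO.ONE
import Pool.Agent.H29.ERO.OUT
import Pool.Agent.H29.ERO.PRC
import Pool.Agent.H48.ER.All

/-!
# MP_816b90_co: the only-if direction of the Everett-Reed conjecture
-/

set_option autoImplicit false

open Pool.Agent.H48.ER

namespace Pool.Agent.H29.ERO

theorem c_OUT : T_OUT := pf_OUT c_TRI c_EVN pf_BTH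

theorem c_RPL : T_RPL := pf_RPL c_CON c_CNH c_EVN

theorem c_ONE : T_ONE := pf_ONE pf_TRL pf_BTH c_RPL c_OUT c_STB

/-- a perfectly contractile graph has no odd hole, no antihole and no odd prism -/
theorem c_OIF : T_OIF :=
  pf_OIF c_WLK c_HNO c_CNH (pf_OHE c_ROT) pf_AHE pf_CYC (pf_PRC c_WLK) c_ONE pf_FRE pf_PUL pf_INP

/-- the left to right direction of the frozen statement `S09779` -/
theorem frozen_mp (n : ℕ) (G : SimpleGraph (Fin n))
    (h : ∀ (m : ℕ) (e : Fin m ↪ Fin n),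
      ∀ P : (k : ℕ) → SimpleGraph (Fin k) → Prop,
        (∀ k : ℕ, P k (⊤ : SimpleGraph (Fin k))) →
        (∀ (k : ℕ) (H : SimpleGraph (Fin (k+1))) (x y : Fin (k+1)) (φ : Fin (k+1) → Fin k),
          x ≠ y → ¬ H.Adj x y →
          (∀ p : H.Walk x y, p.IsPath →
            (∀ i j : ℕ, i + 1 < j → j ≤ p.length → ¬ H.Adj (p.getVert i) (p.getVert j)) →
            p.length % 2 = 0) →
          Function.Surjective φ →
          (∀ u v : Fin (k+1), φ u = φ v ↔ (u = v ∨ (u = x ∧ v = y) ∨ (u = y ∧ v = x))) →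
          P k (SimpleGraph.fromRel (fun a b : Fin k => ∃ u v : Fin (k+1), φ u = a ∧ φ v = b ∧
            H.Adj u v)) →
          P (k+1) H) →
        P m (SimpleGraph.comap (fun i : Fin m => e i) G)) :
    ((¬ ∃ k : ℕ, 5 ≤ k ∧ k % 2 = 1 ∧ Nonempty (SimpleGraph.cycleGraph k ↪g G)) ∧
     (¬ ∃ k : ℕ, 5 ≤ k ∧ Nonempty ((SimpleGraph.cycleGraph k)ᶜ ↪g G)) ∧
     (¬ ∃ (a1 a2 a3 b1 b2 b3 : Fin n) (p1 : G.Walk a1 b1) (p2 : G.Walk a2 b2)
        (p3 : G.Walk a3 b3),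
        p1.IsPath ∧ p2.IsPath ∧ p3.IsPath ∧
        p1.length % 2 = 1 ∧ p2.length % 2 = 1 ∧ p3.length % 2 = 1 ∧
        (∀ w : Fin n, w ∈ p1.support → w ∉ p2.support) ∧
        (∀ w : Fin n, w ∈ p1.support → w ∉ p3.support) ∧
        (∀ w : Fin n, w ∈ p2.support → w ∉ p3.support) ∧
        ∀ u v : Fin n,
          (u ∈ p1.support ∨ u ∈ p2.support ∨ u ∈ p3.support) →
          (v ∈ p1.support ∨ v ∈ p2.support ∨ v ∈ p3.support) →
          (G.Adj u v ↔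
            (p1.toSubgraph.Adj u v ∨ p2.toSubgraph.Adj u v ∨ p3.toSubgraph.Adj u v ∨
             (u ≠ v ∧ (u = a1 ∨ u = a2 ∨ u = a3) ∧ (v = a1 ∨ v = a2 ∨ v = a3)) ∨
             (u ≠ v ∧ (u = b1 ∨ u = b2 ∨ u = b3) ∧ (v = b1 ∨ v = b2 ∨ v = b3)))))) :=
  c_OIF n G fun k e P hP => h k e P hP.1 hP.2

end Pool.Agent.H29.ERO
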