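import Pool.Agent.H29.ERO.Targets
import Pool.Agent.H48.ER.Lib

/-!
# MP_816b90_co, only-if direction: even and odd paths between two rungs (BTH)
-/

set_option autoImplicit false

open Pool.Agent.H48.ER

namespace Pool.Agent.H29.ERO

variable {V : Type} {G : SimpleGraph V} {a b : Fin 3 → V} {n : Fin 3 → ℕ} {P : Fin 3 → Set V}

/-- the short path between two rungs -/
theorem short_path (h : Prism G a b n P) {i j : Fin 3} (hij : i ≠ j) {s g : V} {σ τ : ℕ}
    {R T : Set V} (hs : IP G σ (a i) s R) (hR : R ⊆ P i) (hg : IP G τ (a j) g T) (hT : T ⊆ P j)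
    (hb : b i ∈ R → b j ∈ T → False) : IP G (σ + τ + 1) s g (R ∪ T) := by
  refine hs.rev.append hg ?_ ?_
  · exact (h.dis i j hij).mono hR hT
  · intro u hu v hv
    rw [h.adj i j hij u (hR hu) v (hT hv)]
    constructor
    · rintro (h1 | ⟨h1, h2⟩)
      · exact h1
      · exact (hb (h1 ▸ hu) (h2 ▸ hv)).elim
    · exact Or.inl

/-- the long path between two rungs -/
theorem long_path (h : Prism G a b n P) {i j k : Fin 3} (hij : i ≠ j) (hki : i ≠ k) (hkj : k ≠ j)
    {s g : V} {σ τ : ℕ} {R T : Set V} (hs : IP G σ (a i) s R) (hR : R ⊆ P i)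
    (hg : IP G τ g (b j) T) (hT : T ⊆ P j) (hb : b i ∉ R) (ha : a j ∉ T) :
    IP G (σ + n k + 1 + τ + 1) s g (R ∪ P k ∪ T) := by
  have h1 : IP G (σ + n k + 1) s (b k) (R ∪ P k) := by
    refine hs.rev.append (h.ip k) ((h.dis i k hki).mono_left hR) ?_
    intro u hu v hv
    rw [h.adj i k hki u (hR hu) v hv]
    constructor
    · rintro (h1 | ⟨h1, -⟩)
      · exact h1
      · exact (hb (h1 ▸ hu)).elim
    · exact Or.inl
  refine h1.append hg.rev ?_ ?_
  · rw [Set.disjoint_union_left]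
    exact ⟨(h.dis i j hij).mono hR hT, (h.dis k j hkj).mono_right hT⟩
  · rintro u (hu | hu) v hv
    · rw [h.adj i j hij u (hR hu) v (hT hv)]
      constructor
      · rintro (⟨-, h2⟩ | ⟨h1, -⟩)
        · exact (ha (h2 ▸ hv)).elim
        · exact (hb (h1 ▸ hu)).elim
      · rintro ⟨h1, -⟩
        exfalso
        exact h.ne_of_mem hki (hR hu) (h.b_mem k) h1
    · rw [h.adj k j hkj u hu v (hT hv)]
      constructor
      · rintro (⟨-, h2⟩ | h1)
        · exact (ha (h2 ▸ hv)).elim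
        · exact h1
      · exact Or.inr

theorem third (i j : Fin 3) (hij : i ≠ j) : ∃ k : Fin 3, i ≠ k ∧ k ≠ j := by
  revert i j
  decide

theorem pf_BTH : T_BTH := by
  intro V G a b n P i j s g h hodd hij hs hg hadj
  obtain ⟨k, hki, hkj⟩ := third i j hij
  obtain ⟨i1, i2, R1, R2, r1, r2, hi, hR, hRi, -⟩ := (h.ip i).split hs
  obtain ⟨j1, j2, T1, T2, t1, t2, hj, hT, hTi, -⟩ := (h.ip j).split hg
  have hR1 : R1 ⊆ P i := by rw [← hR]; exact Set.subset_union_left
  have hR2 : R2 ⊆ P i := by rw [← hR]; exact Set.subset_union_right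
  have hT1 : T1 ⊆ P j := by rw [← hT]; exact Set.subset_union_left
  have hT2 : T2 ⊆ P j := by rw [← hT]; exact Set.subset_union_right
  have hver : ∀ l, P l ⊆ ver P := fun l v hv => ⟨l, hv⟩
  have eR : ∀ v, v ∈ R1 → v ∈ R2 → v = s := fun v h1 h2 => by
    have h3 : v ∈ R1 ∩ R2 := ⟨h1, h2⟩
    rw [hRi] at h3
    exact h3
  have eT : ∀ v, v ∈ T1 → v ∈ T2 → v = g := fun v h1 h2 => by
    have h3 : v ∈ T1 ∩ T2 := ⟨h1, h2⟩
    rw [hTi] at h3
    exact h3
  have a1 := hodd i
  have a2 := hodd j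
  have a3 := hodd k
  rw [← hi] at a1
  rw [← hj] at a2
  rw [Nat.odd_iff] at a1 a2 a3
  have short : IP G (i1 + j1 + 1) s g (R1 ∪ T1) :=
    short_path h hij r1 hR1 t1 hT1 fun h1 h2 => hadj (by
      rw [← eR _ h1 r2.right_mem, ← eT _ h2 t2.right_mem]
      exact h.b_adj hij)
  have hshort : R1 ∪ T1 ⊆ ver P := Set.union_subset (hR1.trans (hver i)) (hT1.trans (hver j))
  -- it is enough to find a path of the other parity
  have key : ∀ (m : ℕ) (R : Set V), IP G m s g R → R ⊆ ver P → (m + (i1 + j1 + 1)) % 2 = 1 →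
      (∃ (m : ℕ) (R : Set V), IP G m s g R ∧ R ⊆ ver P ∧ Odd m) ∧
      ∃ (m : ℕ) (R : Set V), IP G m s g R ∧ R ⊆ ver P ∧ Even m := by
    intro m R h1 h2 h3
    rcases Nat.even_or_odd m with h4 | h4
    · exact ⟨⟨_, _, short, hshort, by rw [Nat.odd_iff]; rw [Nat.even_iff] at h4; omega⟩,
        ⟨m, R, h1, h2, h4⟩⟩
    · exact ⟨⟨m, R, h1, h2, h4⟩,
        ⟨_, _, short, hshort, by rw [Nat.even_iff]; rw [Nat.odd_iff] at h4; omega⟩⟩
  by_cases c1 : s = b i ∨ g = a j
  · by_cases c2 : s = a i ∨ g = b j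
    · exfalso
      rcases c1 with c1 | c1 <;> rcases c2 with c2 | c2
      · exact h.a_ne_b i i (c2.symm.trans c1)
      · exact hadj (by rw [c1, c2]; exact h.b_adj hij)
      · exact hadj (by rw [c1, c2]; exact h.a_adj hij)
      · exact h.a_ne_b j j (c1.symm.trans c2)
    · have h1 := long_path h.flip hij hki hkj r2.rev hR2 t1.rev hT1
        (fun h3 => c2 (Or.inl (eR _ r1.left_mem h3).symm))
        (fun h3 => c2 (Or.inr (eT _ h3 t2.right_mem).symm))
      refine key _ _ h1 (Set.union_subset (Set.union_subset (hR2.trans (hver i)) (hver k))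
        (hT1.trans (hver j))) ?_
      omega
  · have h1 := long_path h hij hki hkj r1 hR1 t2 hT2
      (fun h3 => c1 (Or.inl (eR _ h3 r2.right_mem).symm))
      (fun h3 => c1 (Or.inr (eT _ t1.left_mem h3).symm))
    refine key _ _ h1 (Set.union_subset (Set.union_subset (hR1.trans (hver i)) (hver k))
      (hT2.trans (hver j))) ?_
    omega

end Pool.Agent.H29.ERO
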