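import Pool.Agent.H29.ERO.Targets
import Pool.Agent.H48.ER.Lib

/-!
# MP_816b90_co, only-if direction: a prism with one new rung
-/

set_option autoImplicit false

open Pool.Agent.H48.ER

namespace Pool.Agent.H29.ERO

variable {V : Type} {G G' : SimpleGraph V} {a b : Fin 3 → V} {n : Fin 3 → ℕ}
  {P : Fin 3 → Set V}

/-- one rung of a prism is replaced -/
theorem rebuild (h : Prism G a b n P) (i : Fin 3) (a' b' : Fin 3 → V) (m : ℕ) (Q : Set V)
    (hQ : IP G' m (a' i) (b' i) Q) (hm : 1 ≤ m) (ha : ∀ k, k ≠ i → a' k = a k)
    (hb : ∀ k, k ≠ i → b' k = b k)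
    (hc : ∀ k, k ≠ i → ∀ l, l ≠ i → ∀ u ∈ P k, ∀ v ∈ P l, G'.Adj u v ↔ G.Adj u v)
    (hd : ∀ k, k ≠ i → Disjoint Q (P k))
    (he : ∀ k, k ≠ i → ∀ u ∈ Q, ∀ v ∈ P k,
      G'.Adj u v ↔ (u = a' i ∧ v = a k) ∨ (u = b' i ∧ v = b k)) :
    Prism G' a' b' (Function.update n i m) (Function.update P i Q) where
  ip k := by
    by_cases e : k = i
    · subst e
      rw [Function.update_self, Function.update_self]
      exact hQ
    · rw [Function.update_of_ne e, Function.update_of_ne e, ha k e, hb k e]
      exact (h.ip k).congr (hc k e k e)
  pos k := by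
    by_cases e : k = i
    · subst e
      rw [Function.update_self]
      exact hm
    · rw [Function.update_of_ne e]
      exact h.pos k
  dis k l hkl := by
    by_cases e : k = i
    · subst e
      rw [Function.update_self, Function.update_of_ne hkl.symm]
      exact hd l hkl.symm
    · by_cases e' : l = i
      · subst e'
        rw [Function.update_self, Function.update_of_ne e]
        exact (hd k e).symm
      · rw [Function.update_of_ne e, Function.update_of_ne e']
        exact h.dis k l hkl
  adj k l hkl := by
    by_cases e : k = i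
    · subst e
      rw [Function.update_self, Function.update_of_ne hkl.symm, ha l hkl.symm, hb l hkl.symm]
      exact he l hkl.symm
    · by_cases e' : l = i
      · subst e'
        rw [Function.update_self, Function.update_of_ne e, ha k e, hb k e]
        intro u hu v hv
        rw [SimpleGraph.adj_comm, he k e v hv u hu]
        exact or_congr and_comm and_comm
      · rw [Function.update_of_ne e, Function.update_of_ne e', ha k e, hb k e, ha l e', hb l e']
        intro u hu v hv
        rw [hc k e l e' u hu v hv]
        exact h.adj k l hkl u hu v hv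

/-- the rungs of a prism with an odd rung are odd -/
theorem all_odd (hEVN : T_EVN) (hG : NOH G) (h : Prism G a b n P) (j : Fin 3) (hj : Odd (n j)) :
    ∀ i, Odd (n i) := by
  intro i
  have h1 := (hEVN V G a b n P hG h).1 i j
  rw [Nat.even_iff] at h1
  rw [Nat.odd_iff] at hj ⊢
  omega

end Pool.Agent.H29.ERO
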