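import Pool.Agent.H29.ERO.Targets
import Pool.Agent.H48.ER.Lib

/-!
# MP_816b90_co, only-if direction: triangles of the contracted graph (TRL)
-/

set_option autoImplicit false

open Pool.Agent.H48.ER

namespace Pool.Agent.H29.ERO

variable {V : Type} {G : SimpleGraph V} {p q : V}

theorem idn_q (p q : V) : idn p q q = p := by
  unfold idn
  rw [if_pos rfl]

theorem idn_ne {p q v : V} (h : v ≠ q) : idn p q v = v := by
  unfold idn
  rw [if_neg h]

/-- no chordless path with three edges between the vertices of an even pair -/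
theorem no3 (h : EvP G p q) {v w : V} (hpv : G.Adj p v) (hvw : G.Adj v w) (hwq : G.Adj w q)
    (h1 : ¬ G.Adj p w) (h2 : ¬ G.Adj v q) : False := by
  have hvq : v ≠ q := fun e => h.2.1 (e ▸ hpv)
  have hpw : p ≠ w := fun e => h.2.1 (e.symm ▸ hwq)
  have e1 : IP G 1 w q {w, q} := IP.edge hwq
  have e2 : IP G 2 v q (insert v {w, q}) := by
    refine e1.cons ?_ ?_
    · rintro (h3 | h3)
      · exact hvw.ne h3
      · exact hvq h3
    · rintro z (rfl | rfl)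
      · exact ⟨fun _ => rfl, fun _ => hvw⟩
      · exact ⟨fun h3 => absurd h3 h2, fun h3 => absurd hwq (by rw [h3]; exact G.loopless.irrefl _)⟩
  have e3 : IP G 3 p q (insert p (insert v {w, q})) := by
    refine e2.cons ?_ ?_
    · rintro (h3 | h3 | h3)
      · exact hpv.ne h3
      · exact hpw h3
      · exact h.1 h3
    · rintro z (rfl | rfl | rfl)
      · exact ⟨fun _ => rfl, fun _ => hpv⟩
      · exact ⟨fun h3 => absurd h3 h1, fun h3 => absurd hvw (by rw [h3]; exact G.loopless.irrefl _)⟩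
      · exact ⟨fun h3 => absurd h3 h.2.1, fun h3 => absurd h3.symm hvq⟩
  exact absurd (h.2.2 3 _ e3) (by decide)

theorem evp_symm (h : EvP G p q) : EvP G q p :=
  ⟨h.1.symm, fun h1 => h.2.1 h1.symm, fun n R hR => h.2.2 n R hR.rev⟩

/-- a triangle which contains the new vertex comes from a triangle -/
theorem lift_p (h : EvP G p q) {v w : V} (hv : (ctr G p q).Adj p v) (hw : (ctr G p q).Adj p w)
    (hvw : G.Adj v w) : ∃ s, idn p q s = p ∧ G.Adj s v ∧ G.Adj s w := by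
  have hv1 : v ≠ p := hv.1.symm
  have hv2 : v ≠ q := hv.2.2.1
  have hw1 : w ≠ p := hw.1.symm
  have hw2 : w ≠ q := hw.2.2.1
  rw [ctr_adj_left hv1 hv2 h.1] at hv
  rw [ctr_adj_left hw1 hw2 h.1] at hw
  by_cases c1 : G.Adj p v ∧ G.Adj p w
  · exact ⟨p, idn_ne h.1, c1.1, c1.2⟩
  by_cases c2 : G.Adj q v ∧ G.Adj q w
  · exact ⟨q, idn_q p q, c2.1, c2.2⟩
  exfalso
  rcases hv with hv | hv
  · have h1 : ¬ G.Adj p w := fun h3 => c1 ⟨hv, h3⟩
    have h2 : G.Adj q w := hw.resolve_left h1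
    exact no3 h hv hvw h2.symm h1 fun h3 => c2 ⟨h3.symm, h2⟩
  · have h1 : ¬ G.Adj q w := fun h3 => c2 ⟨hv, h3⟩
    have h2 : G.Adj p w := hw.resolve_right h1
    exact no3 (evp_symm h) hv hvw h2.symm h1 fun h3 => c1 ⟨h3.symm, h2⟩

/-- triangles of the contracted graph come from triangles -/
theorem lift_tri (h : EvP G p q) {u v w : V} (h1 : (ctr G p q).Adj u v)
    (h2 : (ctr G p q).Adj v w) (h3 : (ctr G p q).Adj u w) :
    ∃ u' v' w', idn p q u' = u ∧ idn p q v' = v ∧ idn p q w' = w ∧ G.Adj u' v' ∧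
      G.Adj v' w' ∧ G.Adj u' w' := by
  have qu : u ≠ q := h1.2.1
  have qv : v ≠ q := h1.2.2.1
  have qw : w ≠ q := h2.2.2.1
  by_cases pu : u = p
  · subst pu
    have pv : v ≠ u := h1.1.symm
    have pw : w ≠ u := h3.1.symm
    obtain ⟨s, a1, a2, a3⟩ := lift_p h h1 h3 ((ctr_adj_of_ne pv qv pw qw).1 h2)
    exact ⟨s, v, w, a1, idn_ne qv, idn_ne qw, a2, (ctr_adj_of_ne pv qv pw qw).1 h2, a3⟩
  by_cases pv : v = p
  · subst pv
    have pw : w ≠ v := h2.1.symm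
    obtain ⟨s, a1, a2, a3⟩ := lift_p h h1.symm h2 ((ctr_adj_of_ne pu qu pw qw).1 h3)
    exact ⟨u, s, w, idn_ne qu, a1, idn_ne qw, a2.symm, a3, (ctr_adj_of_ne pu qu pw qw).1 h3⟩
  by_cases pw : w = p
  · subst pw
    obtain ⟨s, a1, a2, a3⟩ := lift_p h h3.symm h2.symm ((ctr_adj_of_ne pu qu pv qv).1 h1)
    exact ⟨u, v, s, idn_ne qu, idn_ne qv, a1, (ctr_adj_of_ne pu qu pv qv).1 h1, a3.symm,
      a2.symm⟩
  exact ⟨u, v, w, idn_ne qu, idn_ne qv, idn_ne qw, (ctr_adj_of_ne pu qu pv qv).1 h1,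
    (ctr_adj_of_ne pv qv pw qw).1 h2, (ctr_adj_of_ne pu qu pw qw).1 h3⟩

theorem pf_TRL : T_TRL := by
  intro V G p q a b h hT u v w h1 h2 h3
  obtain ⟨u', v', w', rfl, rfl, rfl, a1, a2, a3⟩ := lift_tri h h1 h2 h3
  rcases hT u' v' w' a1 a2 a3 with ⟨⟨i, hi⟩, ⟨j, hj⟩, ⟨k, hk⟩⟩ | ⟨⟨i, hi⟩, ⟨j, hj⟩, ⟨k, hk⟩⟩
  · exact Or.inl ⟨⟨i, congrArg _ hi⟩, ⟨j, congrArg _ hj⟩, ⟨k, congrArg _ hk⟩⟩
  · exact Or.inr ⟨⟨i, congrArg _ hi⟩, ⟨j, congrArg _ hj⟩, ⟨k, congrArg _ hk⟩⟩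

end Pool.Agent.H29.ERO
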