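import Pool.Agent.H29.ERO.RBD
import Pool.Agent.H29.ERO.TRL
import Pool.Agent.H29.ERO.BTH

/-!
# MP_816b90_co, only-if direction: the rung which contains the new vertex (RPL)
-/

set_option autoImplicit false

open Pool.Agent.H48.ER

namespace Pool.Agent.H29.ERO

variable {V : Type} {G : SimpleGraph V} {p q : V}

/-- chordless paths are connected -/
theorem cn_ip {n : ℕ} {x y : V} {R : Set V} (h : IP G n x y R) : Cn G R := by
  obtain ⟨g, -, -, -, ga, hR⟩ := h
  have hgR : ∀ t, t ≤ n → g t ∈ R := fun t ht => by rw [hR]; exact ⟨t, ht, rfl⟩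
  intro X hX hne hcl
  obtain ⟨x0, hx0⟩ := hne
  have h0 := hX hx0
  rw [hR] at h0
  obtain ⟨t, ht, rfl⟩ := h0
  have up : ∀ s, t + s ≤ n → g (t + s) ∈ X := by
    intro s
    induction s with
    | zero => exact fun _ => hx0
    | succ s ih =>
      intro hs
      exact hcl _ (ih (by omega)) _ (hgR _ hs)
        ((ga (t + s) (t + (s + 1)) (by omega) hs).2 (Or.inl (by omega)))
  have down : ∀ s, s ≤ t → g (t - s) ∈ X := by
    intro s
    induction s with
    | zero => exact fun _ => hx0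
    | succ s ih =>
      intro hs
      exact hcl _ (ih (by omega)) _ (hgR _ (by omega))
        ((ga (t - s) (t - (s + 1)) (by omega) (by omega)).2 (Or.inr (by omega)))
  refine Set.Subset.antisymm hX fun v hv => ?_
  rw [hR] at hv
  obtain ⟨s, hs, rfl⟩ := hv
  rcases Nat.le_total t s with h1 | h1
  · have h2 := up (s - t) (by omega)
    rwa [show t + (s - t) = s by omega] at h2
  · have h2 := down (t - s) (by omega)
    rwa [show t - (t - s) = s by omega] at h2

theorem idn_or (p q v : V) : (v = q ∧ idn p q v = p) ∨ (v ≠ q ∧ idn p q v = v) := by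
  by_cases h : v = q
  · exact Or.inl ⟨h, by rw [h]; exact idn_q p q⟩
  · exact Or.inr ⟨h, idn_ne h⟩

/-- adjacent vertices stay adjacent -/
theorem ctr_idn (hpq : p ≠ q) {u w : V} (h : G.Adj u w) (hne : idn p q u ≠ idn p q w) :
    (ctr G p q).Adj (idn p q u) (idn p q w) := by
  rcases idn_or p q u with ⟨h1, h2⟩ | ⟨h1, h2⟩ <;> rcases idn_or p q w with ⟨h3, h4⟩ | ⟨h3, h4⟩
  · exact absurd (h2.trans h4.symm) hne
  · rw [h2, h4] at hne ⊢
    rw [ctr_adj_left hne.symm h3 hpq]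
    exact Or.inr (h1 ▸ h)
  · rw [h2, h4] at hne ⊢
    rw [SimpleGraph.adj_comm, ctr_adj_left hne h1 hpq]
    exact Or.inr (h3 ▸ h.symm)
  · rw [h2, h4]
    exact ⟨h.ne, h1, h3, Or.inl h⟩

/-- the image of a connected set -/
theorem cn_idn (hpq : p ≠ q) {D : Set V} (h : Cn G D) : Cn (ctr G p q) (idn p q '' D) := by
  intro X hX hne hcl
  obtain ⟨x0, hx0⟩ := hne
  obtain ⟨u0, hu0, rfl⟩ := hX hx0
  have h1 : {v | v ∈ D ∧ idn p q v ∈ X} = D := by
    refine h _ (fun v hv => hv.1) ⟨u0, hu0, hx0⟩ ?_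
    rintro u ⟨hu, huX⟩ w hw huw
    refine ⟨hw, ?_⟩
    by_cases e : idn p q u = idn p q w
    · rw [← e]
      exact huX
    · exact hcl _ huX _ ⟨w, hw, rfl⟩ (ctr_idn hpq huw e)
  refine Set.Subset.antisymm hX ?_
  rintro _ ⟨v, hv, rfl⟩
  rw [← h1] at hv
  exact hv.2

theorem pf_RPL (hCON : T_CON) (hCNH : T_CNH) (hEVN : T_EVN) : T_RPL := by
  intro V G p q a b n P i hG hev h hodd hpq hout hnb
  have hne : p ≠ q := hev.1
  have hq : ∀ k, k ≠ i → ∀ v ∈ P k, v ≠ p ∧ v ≠ q := fun k hk v hv =>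
    ⟨fun e => (hout k hk).1 (e ▸ hv), fun e => (hout k hk).2 (e ▸ hv)⟩
  obtain ⟨m, Q, hQ, hQs⟩ := hCON V (ctr G p q) (idn p q '' P i) (idn p q (a i)) (idn p q (b i))
    (cn_idn hne (cn_ip (h.ip i))) ⟨_, h.a_mem i, rfl⟩ ⟨_, h.b_mem i, rfl⟩
  have hab : idn p q (a i) ≠ idn p q (b i) := by
    intro e
    have hodd_i := hodd i
    rcases idn_or p q (a i) with ⟨h1, h2⟩ | ⟨h1, h2⟩ <;>
      rcases idn_or p q (b i) with ⟨h3, h4⟩ | ⟨h3, h4⟩
    · exact h.a_ne_b i i (h1.trans h3.symm)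
    · have h5 : b i = p := by rw [← h4, ← e, h2]
      have h6 := (h.ip i).rev
      rw [h1, h5] at h6
      exact Nat.not_even_iff_odd.2 hodd_i (hev.2.2 _ _ h6)
    · have h5 : a i = p := by rw [← h2, e, h4]
      have h6 := h.ip i
      rw [h3, h5] at h6
      exact Nat.not_even_iff_odd.2 hodd_i (hev.2.2 _ _ h6)
    · exact h.a_ne_b i i (by rw [← h2, e, h4])
  have hm : 1 ≤ m := by
    by_contra hm
    have h1 : m = 0 := by omega
    subst h1
    exact hab hQ.eq_of_zero.1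
  have hQi : ∀ u ∈ Q, u ≠ p → u ∈ P i ∧ u ≠ q := by
    intro u hu hup
    obtain ⟨w, hw, rfl⟩ := hQs hu
    rcases idn_or p q w with ⟨h1, h2⟩ | ⟨h1, h2⟩
    · exact absurd h2 hup
    · rw [h2]
      exact ⟨hw, h1⟩
  have hid : ∀ u x, u ≠ p → u ≠ q → (u = idn p q x ↔ u = x) := by
    intro u x h1 h2
    rcases idn_or p q x with ⟨h3, h4⟩ | ⟨h3, h4⟩
    · rw [h4, h3]
      exact ⟨fun e => absurd e h1, fun e => absurd e h2⟩
    · rw [h4]
  have hnew : Prism (ctr G p q) (fun k => idn p q (a k)) (fun k => idn p q (b k))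
      (Function.update n i m) (Function.update P i Q) := by
    refine rebuild h i _ _ m Q hQ hm (fun k hk => idn_ne (hq k hk _ (h.a_mem k)).2)
      (fun k hk => idn_ne (hq k hk _ (h.b_mem k)).2) ?_ ?_ ?_
    · intro k hk l hl u hu v hv
      exact ctr_adj_of_ne (hq k hk u hu).1 (hq k hk u hu).2 (hq l hl v hv).1 (hq l hl v hv).2
    · intro k hk
      rw [Set.disjoint_left]
      intro v hv hv'
      have h1 := (hq k hk v hv').1
      exact h.ne_of_mem hk.symm (hQi v hv h1).1 hv' rfl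
    · intro k hk u hu v hv
      have hv1 := (hq k hk v hv).1
      have hv2 := (hq k hk v hv).2
      by_cases hup : u = p
      · subst hup
        rw [ctr_adj_left hv1 hv2 hne]
        constructor
        · intro h1
          rcases hnb k hk v hv h1 with ⟨h2, h3⟩ | ⟨h2, h3⟩
          · exact Or.inl ⟨h3.symm, h2⟩
          · exact Or.inr ⟨h3.symm, h2⟩
        · rintro (⟨h1, rfl⟩ | ⟨h1, rfl⟩)
          · have h2 := h.a_adj hk.symm
            rcases idn_or u q (a i) with ⟨h3, h4⟩ | ⟨h3, h4⟩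
            · exact Or.inr (h3 ▸ h2)
            · rw [h4] at h1
              exact Or.inl (by rw [h1]; exact h2)
          · have h2 := h.b_adj hk.symm
            rcases idn_or u q (b i) with ⟨h3, h4⟩ | ⟨h3, h4⟩
            · exact Or.inr (h3 ▸ h2)
            · rw [h4] at h1
              exact Or.inl (by rw [h1]; exact h2)
      · obtain ⟨h1, h2⟩ := hQi u hu hup
        rw [ctr_adj_of_ne hup h2 hv1 hv2, h.adj i k hk.symm u h1 v hv, hid u (a i) hup h2,
          hid u (b i) hup h2]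
  obtain ⟨k, hk⟩ : ∃ k : Fin 3, k ≠ i := by
    by_cases h0 : i = 0
    · exact ⟨1, by rw [h0]; decide⟩
    · exact ⟨0, fun e => h0 e.symm⟩
  exact ⟨_, _, all_odd hEVN (hCNH V G p q hG hev) hnew k
    (by rw [Function.update_of_ne hk]; exact hodd k), hnew⟩

end Pool.Agent.H29.ERO
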