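import Pool.Agent.H48.ER.Targets

/-!
# MP_816b90_co, the only-if direction of the Everett-Reed conjecture: targets

Odd holes and antiholes have no even pair. A graph without odd holes which contains an odd prism,
and whose only triangles are the two triangles of this prism, has these properties also after the
contraction of an even pair.
-/

set_option autoImplicit false

open Pool.Agent.H48.ER

namespace Pool.Agent.H29.ERO

section

variable {V : Type}

/-- every triangle of `G` is the triangle `a` or the triangle `b` -/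
def TR (G : SimpleGraph V) (a b : Fin 3 → V) : Prop :=
  ∀ u v w, G.Adj u v → G.Adj v w → G.Adj u w →
    ((∃ i, a i = u) ∧ (∃ i, a i = v) ∧ ∃ i, a i = w) ∨
    ((∃ i, b i = u) ∧ (∃ i, b i = v) ∧ ∃ i, b i = w)

open Classical in
/-- the map which identifies `q` with `p` -/
noncomputable def idn (p q : V) (v : V) : V := if v = q then p else v

/-- an odd prism whose triangles are the only triangles -/
def OddPr (G : SimpleGraph V) : Prop :=
  ∃ (a b : Fin 3 → V) (n : Fin 3 → ℕ) (P : Fin 3 → Set V), Prism G a b n P ∧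
    (∀ i, Odd (n i)) ∧ TR G a b

/-- `G` is an odd hole -/
def IsOddHole (G : SimpleGraph V) : Prop :=
  ∃ (n : ℕ) (u v c : V) (R : Set V), IP G n u v R ∧ Odd n ∧ 2 ≤ n ∧ c ∉ R ∧ G.Adj c u ∧
    G.Adj c v ∧ (∀ w ∈ R, G.Adj c w → w = u ∨ w = v) ∧ ∀ w, w = c ∨ w ∈ R

end

/-! ## A. Holes and antiholes -/

/-- (OHE) an odd hole has no even pair; use `T_ROT` of the board er_modules. -/
def T_OHE : Prop := ∀ (V : Type) (G : SimpleGraph V) (x y : V), IsOddHole G → ¬ EvP G x y

/-- (AHE) an antihole has no even pair. -/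
def T_AHE : Prop := ∀ (V : Type) (G : SimpleGraph V) (k : ℕ) (x y : V), 5 ≤ k →
  Nonempty ((SimpleGraph.cycleGraph k)ᶜ ≃g G) → ¬ EvP G x y

/-- (CYC) cycles of odd length are odd holes. -/
def T_CYC : Prop := ∀ (k : ℕ), 5 ≤ k → k % 2 = 1 → IsOddHole (SimpleGraph.cycleGraph k)

/-- (PRC) odd prisms in the form of the problem; converse of `T_HNP`. -/
def T_PRC : Prop := ∀ (m : ℕ) (G : SimpleGraph (Fin m)), NOP G → NoOddPrism G

/-! ## B. The contraction of an even pair in a graph with an odd prism -/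

/-- (TRL) the triangles of the contracted graph. -/
def T_TRL : Prop := ∀ (V : Type) (G : SimpleGraph V) (p q : V) (a b : Fin 3 → V),
  EvP G p q → TR G a b → TR (ctr G p q) (fun i => idn p q (a i)) (fun i => idn p q (b i))

/-- (BTH) two vertices of different rungs are joined by even and by odd paths. -/
def T_BTH : Prop := ∀ (V : Type) (G : SimpleGraph V) (a b : Fin 3 → V) (n : Fin 3 → ℕ)
  (P : Fin 3 → Set V) (i j : Fin 3) (s g : V), Prism G a b n P → (∀ i, Odd (n i)) → i ≠ j →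
  s ∈ P i → g ∈ P j → ¬ G.Adj s g →
  (∃ (m : ℕ) (R : Set V), IP G m s g R ∧ R ⊆ ver P ∧ Odd m) ∧
  ∃ (m : ℕ) (R : Set V), IP G m s g R ∧ R ⊆ ver P ∧ Even m

/-- (RPL) replacement of the rung which contains the new vertex. -/
def T_RPL : Prop := ∀ (V : Type) (G : SimpleGraph V) (p q : V) (a b : Fin 3 → V)
  (n : Fin 3 → ℕ) (P : Fin 3 → Set V) (i : Fin 3), NOH G → EvP G p q → Prism G a b n P →
  (∀ i, Odd (n i)) → (p ∈ P i ∨ q ∈ P i) → (∀ j, j ≠ i → p ∉ P j ∧ q ∉ P j) →
  (∀ j, j ≠ i → ∀ v ∈ P j, G.Adj p v ∨ G.Adj q v →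
    (v = a j ∧ idn p q (a i) = p) ∨ (v = b j ∧ idn p q (b i) = p)) →
  ∃ (n' : Fin 3 → ℕ) (P' : Fin 3 → Set V), (∀ i, Odd (n' i)) ∧
    Prism (ctr G p q) (fun i => idn p q (a i)) (fun i => idn p q (b i)) n' P'

/-- (OUT) one vertex of the even pair is outside of the prism. -/
def T_OUT : Prop := ∀ (V : Type) (G : SimpleGraph V) (s t : V) (a b : Fin 3 → V)
  (n : Fin 3 → ℕ) (P : Fin 3 → Set V) (i j : Fin 3), NOH G → EvP G s t → Prism G a b n P →
  (∀ i, Odd (n i)) → s ∈ P i → t ∉ ver P → i ≠ j → (∀ g ∈ ver P, G.Adj t g → g ∈ P j) →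
  (∀ g ∈ ver P, ∀ h ∈ ver P, G.Adj t g → G.Adj t h → ¬ G.Adj g h) →
  ∀ g ∈ ver P, G.Adj t g → G.Adj s g

/-- (ONE) the contraction of an even pair. -/
def T_ONE : Prop := ∀ (V : Type) (G : SimpleGraph V) (p q : V), NOH G → OddPr G → EvP G p q →
  OddPr (ctr G p q)

/-! ## C. Connection with the problem -/

/-- (FRE) the contracted graph in the form of the problem. -/
def T_FRE : Prop := ∀ (k : ℕ) (H : SimpleGraph (Fin (k + 1))) (x y : Fin (k + 1))
  (φ : Fin (k + 1) → Fin k), x ≠ y → Function.Surjective φ →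
  (∀ u v : Fin (k + 1), φ u = φ v ↔ (u = v ∨ (u = x ∧ v = y) ∨ (u = y ∧ v = x))) →
  ∃ ψ : Fin k → Fin (k + 1), Function.Injective ψ ∧ (∀ u, u ≠ y → ∃ a, ψ a = u) ∧
    SimpleGraph.fromRel (fun a b : Fin k => ∃ u v : Fin (k + 1), φ u = a ∧ φ v = b ∧
      H.Adj u v) = (ctr H x y).comap ψ

/-- (PUL) odd prisms in induced subgraphs. -/
def T_PUL : Prop := ∀ (V W : Type) (G : SimpleGraph V) (ψ : W → V), Function.Injective ψ →
  (∀ u v, G.Adj u v → ∃ a, ψ a = u) → OddPr G → OddPr (G.comap ψ)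

/-- (IND) the graph induced on an odd prism. -/
def T_INP : Prop := ∀ (m : ℕ) (G : SimpleGraph (Fin m)), ¬ NOP G →
  ∃ (k : ℕ) (e : Fin k ↪ Fin m), OddPr (G.comap e)

/-- (OIF) the only-if direction. -/
def T_OIF : Prop := ∀ (m : ℕ) (G : SimpleGraph (Fin m)), PerfCon G →
  NoOddHole G ∧ NoAntihole G ∧ NoOddPrism G

end Pool.Agent.H29.ERO
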